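import Pool.Agent.H13.LN.Targets

/-!
# Permutations of words
-/

set_option autoImplicit false

open Finset
open Pool.Agent.H59.LIN
open Pool.Agent.H13.LN

namespace Pool.Agent.H72.LNT

theorem run_cons {n : ℕ} {α : Type} (x : Fin n × α) (w : List (Fin n × α)) (p : Fin (n + 1)) :
    run (x :: w) p = run w (tr x.1 p) := rfl

theorem run_append {n : ℕ} {α : Type} (u v : List (Fin n × α)) (p : Fin (n + 1)) :
    run (u ++ v) p = run v (run u p) := by
  induction u generalizing p with
  | nil => rfl
  | cons x u ih => exact ih _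

theorem run_bij {n : ℕ} {α : Type} (u : List (Fin n × α)) : Function.Bijective (run u) := by
  induction u with
  | nil => exact Function.bijective_id
  | cons x u ih => exact ih.comp (tr x.1).bijective

theorem rp_eq {n : ℕ} (w : Wd n) (σ : Equiv.Perm (Fin (n + 1))) (p : Fin (n + 1)) :
    ((w.map fun x => tr x.1).foldl Equiv.trans σ) p = run w (σ p) := by
  induction w generalizing σ with
  | nil => rfl
  | cons x w ih =>
    rw [List.map_cons, List.foldl_cons, ih]
    rfl

/-- The word as a permutation. -/
noncomputable def rpe {n : ℕ} {α : Type} (u : List (Fin n × α)) : Equiv.Perm (Fin (n + 1)) :=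
  Equiv.ofBijective (run u) (run_bij u)

theorem rpe_iter {n : ℕ} {α : Type} (u : List (Fin n × α)) (k : ℕ) (p : Fin (n + 1)) :
    (run u)^[k] p = (rpe u ^ k) p := by
  rw [← Equiv.Perm.iterate_eq_pow]
  rfl

/-- In a knot every position is reached from every position. -/
theorem knot_trans {n : ℕ} {α : Type} {w : List (Fin n × α)} (h : Knot w) (a b : Fin (n + 1)) :
    ∃ k, (run w)^[k] a = b := by
  obtain ⟨i, hi⟩ := h a
  obtain ⟨j, hj⟩ := h b
  obtain ⟨N, hN⟩ : ∃ N, orderOf (rpe w) = N + 1 :=
    ⟨orderOf (rpe w) - 1, (Nat.sub_add_cancel (orderOf_pos (rpe w))).symm⟩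
  refine ⟨j + N * i, ?_⟩
  rw [← hi, ← Function.iterate_add_apply, ← hj, rpe_iter, rpe_iter]
  have h1 : j + N * i + i = j + (N + 1) * i := by ring
  rw [h1, ← hN, pow_add, pow_mul, pow_orderOf_eq_one, one_pow, mul_one]

theorem knot_comm {n : ℕ} {α : Type} (u v : List (Fin n × α)) (h : Knot (u ++ v)) :
    Knot (v ++ u) := by
  intro p
  obtain ⟨a, ha⟩ := (run_bij u).2 0
  obtain ⟨b, hb⟩ := (run_bij u).2 p
  obtain ⟨k, hk⟩ := knot_trans h a b
  refine ⟨k, ?_⟩
  have hs : Function.Semiconj (run u) (run (u ++ v)) (run (v ++ u)) := by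
    intro x
    rw [run_append, run_append]
  have h1 := (hs.iterate_right k) a
  rw [hk, ha, hb] at h1
  exact h1.symm

theorem tr_val {n : ℕ} (i : Fin n) (q : Fin (n + 1)) : ((tr i q : Fin (n + 1)) : ℕ) =
    if (q : ℕ) = i then (i : ℕ) + 1 else if (q : ℕ) = i + 1 then (i : ℕ) else q := by
  simp only [tr, Equiv.swap_apply_def, Fin.ext_iff, Fin.val_castSucc, Fin.val_succ]
  split_ifs <;> simp_all

theorem tr_self {n : ℕ} (i : Fin n) (q : Fin (n + 1)) : tr i (tr i q) = q := by
  apply Fin.ext
  simp only [tr_val]
  split_ifs <;> omega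

theorem tr_far {n : ℕ} (i j : Fin n) (h : (i : ℕ) + 1 < j) (q : Fin (n + 1)) :
    tr j (tr i q) = tr i (tr j q) := by
  apply Fin.ext
  simp only [tr_val]
  split_ifs <;> omega

theorem tr_braid {n : ℕ} (i j : Fin n) (h : (j : ℕ) = i + 1) (q : Fin (n + 1)) :
    tr i (tr j (tr i q)) = tr j (tr i (tr j q)) := by
  apply Fin.ext
  simp only [tr_val]
  split_ifs <;> omega

theorem run_loc {n : ℕ} {α : Type} (u X Y : List (Fin n × α)) (h : run X = run Y) :
    run (u ++ X) = run (u ++ Y) := by
  funext p
  rw [run_append, run_append, h]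

theorem st_run {n : ℕ} (f f' : Wd n) (h : St f f') : run f = run f' ∧ nd f = nd f' := by
  cases h with
  | ss u v i =>
    refine ⟨run_loc u _ _ ?_, ?_⟩
    · funext p
      simp only [run_cons, tr_self]
    · simp [nd, List.countP_append, List.countP_cons]
  | far u v i j b c hij =>
    refine ⟨run_loc u _ _ ?_, ?_⟩
    · funext p
      simp only [run_cons, tr_far i j hij]
    · simp only [nd, List.countP_append, List.countP_cons]
      ring
  | braid u v i j hij =>
    refine ⟨run_loc u _ _ ?_, ?_⟩
    · funext p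
      simp only [run_cons, tr_braid i j hij]
    · simp [nd, List.countP_append, List.countP_cons]
  | sx u v i =>
    refine ⟨run_loc u _ _ ?_, ?_⟩
    · rfl
    · simp [nd, List.countP_append, List.countP_cons]
  | ssx u v i j hij =>
    refine ⟨run_loc u _ _ ?_, ?_⟩
    · funext p
      simp only [run_cons, tr_braid i j hij]
    · simp [nd, List.countP_append, List.countP_cons]
  | ssx' u v i j hij =>
    refine ⟨run_loc u _ _ ?_, ?_⟩
    · funext p
      simp only [run_cons, tr_braid i j hij]
    · simp [nd, List.countP_append, List.countP_cons]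

theorem run_lft {n : ℕ} (f : Wd n) : run (lft f) = run f := by
  funext p
  induction f generalizing p with
  | nil => rfl
  | cons x f ih => exact ih _

theorem run_flt {n : ℕ} (w : SWd n) : run (flt w) = run w := by
  funext p
  induction w generalizing p with
  | nil => rfl
  | cons x w ih => exact ih _

theorem run_up {n : ℕ} (w : Wd n) (p : Fin (n + 1)) : run (up w) p.castSucc = (run w p).castSucc := by
  induction w generalizing p with
  | nil => rfl
  | cons x w ih =>
    have h1 : tr x.1.castSucc p.castSucc = (tr x.1 p).castSucc := by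
      apply Fin.ext
      rw [Fin.val_castSucc, tr_val, tr_val]
      simp
    change run (up w) (tr x.1.castSucc p.castSucc) = _
    rw [h1, ih]
    rfl

theorem run_up_last {n : ℕ} (w : Wd n) : run (up w) (Fin.last (n + 1)) = Fin.last (n + 1) := by
  induction w with
  | nil => rfl
  | cons x w ih =>
    have h1 : tr x.1.castSucc (Fin.last (n + 1)) = Fin.last (n + 1) := by
      apply Fin.ext
      rw [tr_val]
      have := x.1.isLt
      simp only [Fin.val_castSucc, Fin.val_last]
      split_ifs <;> omega
    change run (up w) (tr x.1.castSucc (Fin.last (n + 1))) = _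
    rw [h1, ih]

theorem knot_up {n : ℕ} (w : Wd n) (b : Bool) (h : Knot w) :
    Knot (up w ++ [(Fin.last n, b)]) := by
  have hR : ∀ p, run (up w ++ [(Fin.last n, b)]) p = tr (Fin.last n) (run (up w) p) := by
    intro p
    rw [run_append]
    rfl
  have h1 : ∀ q : Fin (n + 1), run w q ≠ Fin.last n →
      run (up w ++ [(Fin.last n, b)]) q.castSucc = (run w q).castSucc := by
    intro q hq
    rw [hR, run_up]
    apply Fin.ext
    rw [tr_val]
    have h2 : ((run w q : Fin (n + 1)) : ℕ) ≠ n := fun h => hq (Fin.ext h)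
    have h3 := (run w q).isLt
    simp only [Fin.val_castSucc, Fin.val_last]
    split_ifs <;> omega
  have h2 : ∀ q : Fin (n + 1), run w q = Fin.last n →
      run (up w ++ [(Fin.last n, b)]) q.castSucc = Fin.last (n + 1) := by
    intro q hq
    rw [hR, run_up, hq]
    apply Fin.ext
    rw [tr_val]
    simp
  have h3 : run (up w ++ [(Fin.last n, b)]) (Fin.last (n + 1)) = (Fin.last n).castSucc := by
    rw [hR, run_up_last]
    apply Fin.ext
    rw [tr_val]
    simp
  have h4 : ∀ k, ∃ m, (run (up w ++ [(Fin.last n, b)]))^[m] 0 = ((run w)^[k] 0).castSucc := by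
    intro k
    induction k with
    | zero => exact ⟨0, rfl⟩
    | succ k ih =>
      obtain ⟨m, hm⟩ := ih
      by_cases hq : run w ((run w)^[k] 0) = Fin.last n
      · refine ⟨m + 1 + 1, ?_⟩
        rw [Function.iterate_succ_apply', Function.iterate_succ_apply', hm, h2 _ hq, h3,
          Function.iterate_succ_apply', hq]
      · refine ⟨m + 1, ?_⟩
        rw [Function.iterate_succ_apply', hm, h1 _ hq, Function.iterate_succ_apply']
  intro p
  rcases Fin.eq_castSucc_or_eq_last p with ⟨p', rfl⟩ | rfl
  · obtain ⟨k, hk⟩ := h p'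
    obtain ⟨m, hm⟩ := h4 k
    exact ⟨m, by rw [hm, hk]⟩
  · obtain ⟨q, hq⟩ := (run_bij w).2 (Fin.last n)
    obtain ⟨k, hk⟩ := h q
    obtain ⟨m, hm⟩ := h4 k
    refine ⟨m + 1, ?_⟩
    rw [Function.iterate_succ_apply', hm, hk, h2 q hq]

/-- (RUN) permutations of words. -/
theorem run' : T_RUN := by
  refine ⟨fun n α u v p => run_append u v p, fun n α u => run_bij u,
    fun n w p => rp_eq w (Equiv.refl _) p, fun n α u v h => knot_comm u v h, ?_,
    fun n w b h => knot_up w b h, fun n f f' h => st_run f f' h, ?_, ?_⟩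
  · intro n α β u v h hk
    unfold Knot
    rw [← h]
    exact hk
  · intro n f
    refine ⟨run_lft f, ?_, ?_⟩
    · unfold dbl lft nd
      rw [List.countP_map]
      apply List.countP_congr
      rintro ⟨i, b⟩ _
      cases b <;> simp
    · unfold flt lft
      rw [List.map_map]
      conv_rhs => rw [← List.map_id f]
      apply List.map_congr_left
      rintro ⟨i, b⟩ _
      cases b <;> simp
  · intro n w
    refine ⟨run_flt w, ?_⟩
    unfold dbl flt nd
    rw [List.countP_map]
    apply List.countP_congr
    rintro ⟨i, b⟩ _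
    simp

/-- (RUN) permutations of words. -/
theorem run : T_RUN := run'

end Pool.Agent.H72.LNT
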